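import Pool.Agent.SQD.Stmts

/-!
# Squad SQD, row CNS: the count for small `d` (author helper17)
-/

set_option autoImplicit false

open Filter

open scoped BigOperators Topology

noncomputable section

namespace Pool.Agent.SQD.H17

theorem not_dvd_of_jacobi {d q : ℕ} (hq : q.Prime) (h : jacobiSym d q = -1) : ¬ q ∣ d := by
  intro hd
  have : NeZero q := ⟨hq.ne_zero⟩
  have h1 : jacobiSym (d : ℤ) q = 0 := by
    rw [jacobiSym.eq_zero_iff_not_coprime]
    intro h2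
    have h3 : (q : ℤ) ∣ (Int.gcd (d : ℤ) q : ℤ) :=
      Int.dvd_coe_gcd (by exact_mod_cast hd) (dvd_refl _)
    rw [h2] at h3
    have h4 : q ∣ 1 := by exact_mod_cast h3
    exact hq.one_lt.ne' (Nat.dvd_one.1 h4)
  rw [h1] at h
  norm_num at h

theorem sum_inv_Icc (n : ℕ) : ∑ d ∈ Finset.Icc 1 n, (1 : ℝ) / d ≤ 1 + Real.log n := by
  have h1 := harmonic_le_one_add_log n
  have h2 : ((harmonic n : ℚ) : ℝ) = ∑ d ∈ Finset.Icc 1 n, (1 : ℝ) / d := by
    rw [harmonic_eq_sum_Icc]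
    push_cast
    refine Finset.sum_congr rfl fun d _ => ?_
    rw [one_div]
  rw [← h2]
  exact h1

theorem cns (six : SixStmt) (dvc : DvcStmt) (ine : IneStmt) : CnsStmt := by
  classical
  intro A
  obtain ⟨C, hC⟩ := ine
  set L : ℕ := LA A with hL
  have hLA : L = 64 * (A + 3) := rfl
  have hL1 : 1 ≤ L := by omega
  obtain ⟨x₁, hx₁⟩ := six L (A + 1) hL1
  set w : ℕ := 2 * L ^ 2 with hw
  have hw2 : 2 ≤ w := by
    have : 1 ≤ L ^ 2 := Nat.one_le_pow _ _ hL1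
    omega
  set C' : ℝ := C + Real.log (Real.log w) + 3 with hC'
  have hl : Tendsto (fun x : ℕ => Real.log (x : ℝ)) atTop atTop :=
    Real.tendsto_log_atTop.comp tendsto_natCast_atTop_atTop
  have e1 : ∀ᶠ x : ℕ in atTop, 1 ≤ Real.log x := hl.eventually_ge_atTop 1
  have e2 : ∀ᶠ x : ℕ in atTop, Real.log 4 ≤ (Real.log x) ^ (1 / 16 : ℝ) :=
    ((tendsto_rpow_atTop (by norm_num : (0 : ℝ) < 1 / 16)).comp hl).eventually_ge_atTop _
  have e3 : ∀ᶠ x : ℕ in atTop, (2 * Real.log 2 + w + 1 : ℝ) ≤ √(Real.log x) :=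
    (Real.tendsto_sqrt_atTop.comp hl).eventually_ge_atTop _
  have e4 : ∀ᶠ x : ℕ in atTop, 8 * C' ≤ Real.log (Real.log x) :=
    (Real.tendsto_log_atTop.comp hl).eventually_ge_atTop _
  have e5 : ∀ᶠ x : ℕ in atTop, max x₁ 4 ≤ x := eventually_ge_atTop _
  obtain ⟨x₀, h⟩ := eventually_atTop.1 (e1.and (e2.and (e3.and (e4.and e5))))
  refine ⟨x₀, fun x hx => ?_⟩
  obtain ⟨f1, f2, f3, f4, f5⟩ := h x hx
  set l : ℝ := Real.log x with hldef
  have hxx₁ : x₁ ≤ x := (le_max_left _ _).trans f5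
  have hx4 : 4 ≤ x := (le_max_right _ _).trans f5
  have hx4' : (4 : ℝ) ≤ x := by exact_mod_cast hx4
  have hx0 : (0 : ℝ) ≤ x := by linarith
  have hl0 : 0 < l := by linarith
  have hll : 0 ≤ Real.log l := Real.log_nonneg f1
  have hlog2 : 0 < Real.log 2 := Real.log_pos (by norm_num)
  have hlog2' : Real.log 2 < 1 := by
    have := Real.log_two_lt_d9
    linarith
  -- the level
  set z : ℕ := ⌊Real.exp (√l)⌋₊ with hz
  have hzle : (z : ℝ) ≤ Real.exp (√l) := Nat.floor_le (Real.exp_pos _).le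
  have hwR : (0 : ℝ) ≤ w := Nat.cast_nonneg w
  have hexp : √l + 1 ≤ Real.exp (√l) := Real.add_one_le_exp _
  have hwz : w ≤ z := by
    apply Nat.le_floor
    linarith
  have hzlog : √l / 2 ≤ Real.log z := by
    have h1 : Real.exp (√l) < z + 1 := Nat.lt_floor_add_one _
    have h2 : Real.exp (√l) / 2 ≤ z := by linarith
    have h3 : Real.log (Real.exp (√l) / 2) ≤ Real.log z :=
      Real.log_le_log (by positivity) h2
    rw [Real.log_div (Real.exp_pos _).ne' (by norm_num), Real.log_exp] at h3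
    linarith
  have hsq0 : 0 < √l := Real.sqrt_pos.2 hl0
  have hzll : Real.log l / 2 - Real.log 2 ≤ Real.log (Real.log z) := by
    have h1 : Real.log (√l / 2) ≤ Real.log (Real.log z) :=
      Real.log_le_log (by positivity) hzlog
    rw [Real.log_div hsq0.ne' (by norm_num), Real.log_sqrt hl0.le] at h1
    exact h1
  -- one `d`
  have key : ∀ d : ℕ, ¬ IsSquare d → d * d ≤ x → (d : ℝ) ≤ Real.exp (l ^ (1 / 16 : ℝ)) →
      ({n : ℕ | 1 ≤ n ∧ n ≤ x ∧ d ∣ n ∧ Spl L 1 d n}.ncard : ℝ) ≤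
        3 * x / l ^ (A + 1) * (1 / d) := by
    intro d hd hdx hdD
    have hd2 : 2 ≤ d := by
      by_contra hcon
      apply hd
      have : d = 0 ∨ d = 1 := by omega
      rcases this with h | h
      · rw [h]; exact ⟨0, rfl⟩
      · rw [h]; exact ⟨1, rfl⟩
    have hdR : (2 : ℝ) ≤ d := by exact_mod_cast hd2
    have hd0 : (0 : ℝ) < d := by linarith
    have hS : ∀ q ∈ NR w z d, q.Prime ∧ 2 * L ^ 2 < q ∧ q ≤ z ∧ jacobiSym d q = -1 := by
      intro q hq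
      rw [NR, Finset.mem_filter, PR, Finset.mem_filter, Finset.mem_Ioc] at hq
      exact ⟨hq.1.2, hq.1.1.1, hq.1.1.2, hq.2⟩
    have h1 := dvc L 1 d d x (NR w z d) (by omega) (fun q hq =>
      ⟨(hS q hq).1, (hS q hq).2.1, (hS q hq).2.2.2⟩)
    have hN : √(x : ℝ) ≤ 2 * ((x / d : ℕ) : ℝ) := by
      have h2 : (d : ℝ) ≤ √(x : ℝ) := by
        apply Real.le_sqrt_of_sq_le
        rw [sq]
        exact_mod_cast hdx
      have h3 : (x : ℝ) / d < ((x / d : ℕ) : ℝ) + 1 := by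
        rw [div_lt_iff₀ hd0]
        have h4 := Nat.lt_div_mul_add (a := x) (b := d) (by omega)
        have h5 : (x : ℝ) < ((x / d : ℕ) : ℝ) * d + d := by exact_mod_cast h4
        linarith
      have h4 : √(x : ℝ) ≤ (x : ℝ) / d := by
        rw [le_div_iff₀ hd0]
        calc √(x : ℝ) * d ≤ √(x : ℝ) * √(x : ℝ) :=
              mul_le_mul_of_nonneg_left h2 (Real.sqrt_nonneg _)
          _ = x := Real.mul_self_sqrt hx0
      have h5 : (2 : ℝ) ≤ √(x : ℝ) := by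
        apply Real.le_sqrt_of_sq_le
        linarith
      linarith
    have hsR : ((A + 1 : ℕ) : ℝ) * Real.log (Real.log x) ≤ L * sR (NR w z d) := by
      have h2 := hC d z w hd hw2 hwz
      have h3 : Real.log (Real.log (4 * d)) ≤ Real.log 2 + Real.log l / 16 := by
        have h4 : Real.log (4 * (d : ℝ)) ≤ 2 * l ^ (1 / 16 : ℝ) := by
          rw [Real.log_mul (by norm_num) hd0.ne']
          have h5 : Real.log d ≤ l ^ (1 / 16 : ℝ) := by
            have h6 := Real.log_le_log hd0 hdD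
            rwa [Real.log_exp] at h6
          linarith
        have h5 : 0 < Real.log (4 * (d : ℝ)) := Real.log_pos (by linarith)
        have h6 := Real.log_le_log h5 h4
        rw [Real.log_mul (by norm_num) (Real.rpow_pos_of_pos hl0 _).ne', Real.log_rpow hl0] at h6
        linarith
      have h4 : Real.log l / 16 ≤ sR (NR w z d) := by
        have h5 : Real.log (Real.log w) = C' - C - 3 := by rw [hC']; ring
        rw [h5] at h2
        linarith
      have h5 : (L : ℝ) = 64 * ((A : ℝ) + 3) := by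
        rw [hLA]
        push_cast
        ring
      have hA0 : (0 : ℝ) ≤ A := Nat.cast_nonneg A
      calc ((A + 1 : ℕ) : ℝ) * Real.log (Real.log x) = ((A : ℝ) + 1) * Real.log l := by
            push_cast
            rfl
        _ ≤ L * (Real.log l / 16) := by
            have h7 : 0 ≤ (3 * (A : ℝ) + 11) * Real.log l := mul_nonneg (by linarith) hll
            have h8 : 64 * ((A : ℝ) + 3) * (Real.log l / 16) =
                ((A : ℝ) + 1) * Real.log l + (3 * (A : ℝ) + 11) * Real.log l := by ring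
            rw [h5, h8]
            linarith
        _ ≤ L * sR (NR w z d) := by
            apply mul_le_mul_of_nonneg_left h4 (Nat.cast_nonneg L)
    have h2 := hx₁ x (x / d) z 1 d (NR w z d) hxx₁ hN hzle (fun q hq =>
      ⟨(hS q hq).1, (hS q hq).2.1, (hS q hq).2.2.1, (hS q hq).1.one_lt.ne' ∘ Nat.dvd_one.1,
        not_dvd_of_jacobi (hS q hq).1 (hS q hq).2.2.2⟩) hsR
    have h3 : ((x / d : ℕ) : ℝ) ≤ (x : ℝ) / d := Nat.cast_div_le
    have h1' : ({n : ℕ | 1 ≤ n ∧ n ≤ x ∧ d ∣ n ∧ Spl L 1 d n}.ncard : ℝ) ≤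
        ((Sft L 1 d (x / d) (NR w z d)).ncard : ℝ) := by exact_mod_cast h1
    refine h1'.trans (h2.trans ?_)
    have hlp : 0 < l ^ (A + 1) := by positivity
    change 3 * ((x / d : ℕ) : ℝ) / l ^ (A + 1) ≤ _
    calc 3 * ((x / d : ℕ) : ℝ) / l ^ (A + 1) ≤ 3 * ((x : ℝ) / d) / l ^ (A + 1) := by
          gcongr
      _ = 3 * x / l ^ (A + 1) * (1 / d) := by ring
  -- the union
  set D : ℝ := Real.exp (l ^ (1 / 16 : ℝ)) with hD
  set I : Finset ℕ := (Finset.Icc 1 ⌊D⌋₊).filter (fun d => ¬ IsSquare d ∧ d * d ≤ x) with hI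
  have hsub : {n : ℕ | 1 ≤ n ∧ n ≤ x ∧ ∃ d : ℕ, ¬ IsSquare d ∧ d ∣ n ∧ d * d ≤ x ∧
      (d : ℝ) ≤ D ∧ Spl L 1 d n} ⊆
      ⋃ d ∈ I, {n : ℕ | 1 ≤ n ∧ n ≤ x ∧ d ∣ n ∧ Spl L 1 d n} := by
    rintro n ⟨hn1, hnx, d, hd, hdn, hdx, hdD, hspl⟩
    rw [Set.mem_iUnion₂]
    refine ⟨d, ?_, hn1, hnx, hdn, hspl⟩
    rw [hI, Finset.mem_filter, Finset.mem_Icc]
    refine ⟨⟨?_, Nat.le_floor hdD⟩, hd, hdx⟩
    rcases Nat.eq_zero_or_pos d with h0 | h0
    · exact absurd (by rw [h0]; exact ⟨0, rfl⟩) hd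
    · exact h0
  have hfin : (⋃ d ∈ I, {n : ℕ | 1 ≤ n ∧ n ≤ x ∧ d ∣ n ∧ Spl L 1 d n}).Finite := by
    refine (Set.finite_Icc 1 x).subset ?_
    intro n hn
    obtain ⟨d, _, h1, h2, _⟩ := Set.mem_iUnion₂.1 hn
    exact ⟨h1, h2⟩
  have hcard : ({n : ℕ | 1 ≤ n ∧ n ≤ x ∧ ∃ d : ℕ, ¬ IsSquare d ∧ d ∣ n ∧ d * d ≤ x ∧
      (d : ℝ) ≤ D ∧ Spl L 1 d n}.ncard : ℝ) ≤
      ∑ d ∈ I, ({n : ℕ | 1 ≤ n ∧ n ≤ x ∧ d ∣ n ∧ Spl L 1 d n}.ncard : ℝ) := by
    have h1 := (Set.ncard_le_ncard hsub hfin).trans (Finset.set_ncard_biUnion_le I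
      (fun d => {n : ℕ | 1 ≤ n ∧ n ≤ x ∧ d ∣ n ∧ Spl L 1 d n}))
    exact_mod_cast h1
  have hsum : ∑ d ∈ I, ({n : ℕ | 1 ≤ n ∧ n ≤ x ∧ d ∣ n ∧ Spl L 1 d n}.ncard : ℝ) ≤
      ∑ d ∈ I, 3 * x / l ^ (A + 1) * (1 / (d : ℝ)) := by
    apply Finset.sum_le_sum
    intro d hd
    rw [hI, Finset.mem_filter, Finset.mem_Icc] at hd
    refine key d hd.2.1 hd.2.2 ?_
    exact (Nat.le_floor_iff (Real.exp_pos _).le).1 hd.1.2
  have hinv : ∑ d ∈ I, (1 : ℝ) / (d : ℝ) ≤ 2 * l := by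
    have h1 : ∑ d ∈ I, (1 : ℝ) / (d : ℝ) ≤ ∑ d ∈ Finset.Icc 1 ⌊D⌋₊, (1 : ℝ) / (d : ℝ) := by
      apply Finset.sum_le_sum_of_subset_of_nonneg (Finset.filter_subset _ _)
      intro d _ _
      positivity
    have h2 := sum_inv_Icc ⌊D⌋₊
    have h3 : Real.log (⌊D⌋₊ : ℝ) ≤ l ^ (1 / 16 : ℝ) := by
      rcases Nat.eq_zero_or_pos ⌊D⌋₊ with h0 | h0
      · rw [h0]
        simp
        positivity
      · have h4 : (⌊D⌋₊ : ℝ) ≤ D := Nat.floor_le (Real.exp_pos _).le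
        have h5 : (0 : ℝ) < (⌊D⌋₊ : ℝ) := by exact_mod_cast h0
        have h6 := Real.log_le_log h5 h4
        rwa [hD, Real.log_exp] at h6
    have h4 : l ^ (1 / 16 : ℝ) ≤ l := by
      calc l ^ (1 / 16 : ℝ) ≤ l ^ (1 : ℝ) :=
            Real.rpow_le_rpow_of_exponent_le f1 (by norm_num)
        _ = l := Real.rpow_one l
    linarith
  refine hcard.trans (hsum.trans ?_)
  rw [← Finset.mul_sum]
  have hlp : 0 < l ^ (A + 1) := by positivity
  calc 3 * x / l ^ (A + 1) * ∑ d ∈ I, (1 : ℝ) / (d : ℝ) ≤ 3 * x / l ^ (A + 1) * (2 * l) := by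
        apply mul_le_mul_of_nonneg_left hinv
        positivity
    _ = 6 * x / l ^ A := by
        rw [pow_succ]
        field_simp
        ring

end Pool.Agent.SQD.H17
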